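import Pool.Agent.Helper94.T1.Planar

/-!
# A closed surface with positive Euler characteristic has a spherical component

`a`, `b` permutations of a finite set `Ω` (cells): if the number of the cycles of `a`, `b`, `b a⁻¹` is larger than the number
of the cells, then on some component it is larger by two, and the planar lemma applies to this component.
-/

set_option autoImplicit false
set_option linter.unusedSectionVars false

open Finset Equiv

namespace Pool.Agent.Helper72.T1

universe u

/-- The cycles of a permutation, fixed points included. -/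
abbrev Cyc {Ω : Type u} (σ : Perm Ω) : Type u := Quotient (Perm.SameCycle.setoid σ)

theorem ainv {Ω : Type u} (a : Perm Ω) (w : Ω) : a (a⁻¹ w) = w := by simp

/-- The sign in terms of the number of the cycles. -/
theorem sign_cyc {Ω : Type u} [Fintype Ω] [DecidableEq Ω] (σ : Perm Ω) [Fintype (Cyc σ)] :
    Perm.sign σ = (-1) ^ (Fintype.card Ω + Fintype.card (Cyc σ)) := by
  classical
  set f : Ω → Perm Ω ⊕ Ω := fun w => if w ∈ σ.support then Sum.inl (σ.cycleOf w) else Sum.inr w with hf
  have hff : ∀ w w', f w = f w' ↔ σ.SameCycle w w' := by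
    intro w w'
    by_cases h : w ∈ σ.support
    · by_cases h' : w' ∈ σ.support
      · simp only [hf, if_pos h, if_pos h', Sum.inl.injEq]
        rw [Perm.sameCycle_iff_cycleOf_eq_of_mem_support h h']
      · simp only [hf, if_pos h, if_neg h']
        constructor
        · intro h1
          cases h1
        · intro h1
          exfalso
          have h2 := h1.symm.eq_of_left (Perm.notMem_support.1 h')
          rw [h2] at h'
          exact h' h
    · by_cases h' : w' ∈ σ.support
      · simp only [hf, if_neg h, if_pos h']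
        constructor
        · intro h1
          cases h1
        · intro h1
          exfalso
          have h2 := h1.eq_of_left (Perm.notMem_support.1 h)
          rw [h2] at h
          exact h h'
      · simp only [hf, if_neg h, if_neg h', Sum.inr.injEq]
        constructor
        · rintro rfl
          exact Perm.SameCycle.refl _ _
        · intro h1
          exact h1.eq_of_left (Perm.notMem_support.1 h)
  have h1 : Fintype.card (Cyc σ) = (univ.image f).card := by
    rw [← Finset.card_univ]
    set g : Cyc σ → Perm Ω ⊕ Ω := Quotient.lift f fun w w' h => (hff w w').2 h with hg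
    have hinj : Function.Injective g := by
      intro q q'
      induction q using Quotient.inductionOn
      induction q' using Quotient.inductionOn
      intro h
      exact Quotient.sound ((hff _ _).1 h)
    rw [← Finset.card_image_of_injective univ hinj]
    congr 1
    ext y
    simp only [mem_image, mem_univ, true_and]
    constructor
    · rintro ⟨q, rfl⟩
      induction q using Quotient.inductionOn with
      | h w => exact ⟨w, rfl⟩
    · rintro ⟨w, rfl⟩
      exact ⟨Quotient.mk _ w, rfl⟩
  have h2 : univ.image f = σ.cycleFactorsFinset.disjSum σ.supportᶜ := by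
    ext y
    rcases y with y | y
    · simp only [mem_image, mem_univ, true_and, inl_mem_disjSum]
      constructor
      · rintro ⟨w, hw⟩
        by_cases h : w ∈ σ.support
        · simp only [hf, if_pos h, Sum.inl.injEq] at hw
          rw [← hw]
          exact Perm.cycleOf_mem_cycleFactorsFinset_iff.2 h
        · simp only [hf, if_neg h] at hw
          cases hw
      · intro hy
        obtain ⟨h3, h4⟩ := Perm.mem_cycleFactorsFinset_iff.1 hy
        obtain ⟨w, hw⟩ := h3.nonempty_support
        have hws : w ∈ σ.support := Perm.mem_cycleFactorsFinset_support_le hy hw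
        refine ⟨w, ?_⟩
        simp only [hf, if_pos hws, Sum.inl.injEq]
        exact (Perm.cycle_is_cycleOf hw hy).symm
    · simp only [mem_image, mem_univ, true_and, inr_mem_disjSum, mem_compl]
      constructor
      · rintro ⟨w, hw⟩
        by_cases h : w ∈ σ.support
        · simp only [hf, if_pos h] at hw
          cases hw
        · simp only [hf, if_neg h, Sum.inr.injEq] at hw
          rw [← hw]
          exact h
      · intro hy
        exact ⟨y, by simp only [hf, if_neg hy]⟩
  rw [h1, h2, card_disjSum, Perm.sign_of_cycleType, Perm.sum_cycleType, Perm.cycleType_def, Multiset.card_map]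
  have h3 : σ.support.card + σ.supportᶜ.card = Fintype.card Ω := card_add_card_compl _
  have h4 : Fintype.card Ω + (σ.cycleFactorsFinset.card + σ.supportᶜ.card) =
      (σ.support.card + Multiset.card σ.cycleFactorsFinset.1) + 2 * σ.supportᶜ.card := by
    rw [← h3]
    show _ = σ.support.card + σ.cycleFactorsFinset.card + _
    ring
  have h5 : (-1 : ℤˣ) ^ (2 * σ.supportᶜ.card) = 1 := by
    rw [pow_mul]
    simp
  rw [h4, pow_add (-1 : ℤˣ) _ (2 * σ.supportᶜ.card), h5, mul_one]

/-- The Euler characteristic is even. -/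
theorem euler_even {Ω : Type u} [Fintype Ω] (a b : Perm Ω) [Fintype (Cyc a)] [Fintype (Cyc b)] [Fintype (Cyc (b * a⁻¹))]
    (h : Fintype.card Ω < Fintype.card (Cyc a) + Fintype.card (Cyc b) + Fintype.card (Cyc (b * a⁻¹))) :
    Fintype.card Ω + 2 ≤ Fintype.card (Cyc a) + Fintype.card (Cyc b) + Fintype.card (Cyc (b * a⁻¹)) := by
  classical
  have h1 : Perm.sign a * Perm.sign b * Perm.sign (b * a⁻¹) = 1 := by
    rw [Perm.sign_mul, Perm.sign_inv]
    calc Perm.sign a * Perm.sign b * (Perm.sign b * Perm.sign a) =
        (Perm.sign a * Perm.sign a) * (Perm.sign b * Perm.sign b) := by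
          rw [mul_mul_mul_comm, mul_comm (Perm.sign b) (Perm.sign a), mul_mul_mul_comm]
      _ = 1 := by rw [Int.units_mul_self, Int.units_mul_self, one_mul]
  rw [sign_cyc a, sign_cyc b, sign_cyc (b * a⁻¹), ← pow_add, ← pow_add] at h1
  have h2 : Even (Fintype.card Ω + Fintype.card (Cyc a) + (Fintype.card Ω + Fintype.card (Cyc b)) +
      (Fintype.card Ω + Fintype.card (Cyc (b * a⁻¹)))) := by
    by_contra hodd
    rw [Nat.not_even_iff_odd] at hodd
    rw [hodd.neg_one_pow] at h1
    exact absurd h1 (by decide)
  rw [Nat.even_iff] at h2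
  omega

/-- The number of the cycles and invariant subsets. -/
theorem cyc_split {Ω : Type u} [Fintype Ω] (a : Perm Ω) (E : Ω → Prop) (h : ∀ w, E (a w) ↔ E w)
    [Fintype (Cyc a)] [Fintype (Cyc (a.subtypePerm h))]
    [Fintype (Cyc (a.subtypePerm (p := fun w => ¬ E w) fun w => not_congr (h w)))] :
    Fintype.card (Cyc a) ≤ Fintype.card (Cyc (a.subtypePerm h)) +
      Fintype.card (Cyc (a.subtypePerm (p := fun w => ¬ E w) fun w => not_congr (h w))) := by
  classical
  rw [← Fintype.card_sum]
  have key : ∀ (P : Ω → Prop) (hP : ∀ w, P (a w) ↔ P w) (w w' : {w // P w}),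
      (a.subtypePerm hP).SameCycle w w' → a.SameCycle w.1 w'.1 := by
    rintro P hP w w' ⟨i, hi⟩
    refine ⟨i, ?_⟩
    rw [← hi, Perm.subtypePerm_zpow]
    rfl
  refine Fintype.card_le_of_surjective (Sum.elim
    (Quotient.map (fun w : {w // E w} => w.1) fun w w' hw => key _ h w w' hw)
    (Quotient.map (fun w : {w // ¬ E w} => w.1) fun w w' hw => key _ _ w w' hw)) ?_
  intro q
  induction q using Quotient.inductionOn with
  | h w =>
    by_cases hw : E w
    · exact ⟨Sum.inl (Quotient.mk _ ⟨w, hw⟩), rfl⟩
    · exact ⟨Sum.inr (Quotient.mk _ ⟨w, hw⟩), rfl⟩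

/-- **The planar lemma on a component.** If the number of the cycles of `a`, `b` and `b a⁻¹` is larger than the number of the
cells, there is a component on which all inequalities are equalities. -/
theorem slack_component_cyc {X : Type*} [LinearOrder X] : ∀ (n : ℕ) {Ω : Type u} [Fintype Ω] (a b : Perm Ω)
    [Fintype (Cyc a)] [Fintype (Cyc b)] [Fintype (Cyc (b * a⁻¹))], Fintype.card Ω = n →
    Fintype.card Ω < Fintype.card (Cyc a) + Fintype.card (Cyc b) + Fintype.card (Cyc (b * a⁻¹)) →
    ∀ (s s' t t' : Ω → X ≃o X), (∀ w x, s' w ((s w).symm x) ≤ t' w ((t w).symm x)) →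
    (∀ w x, s (a w) x ≤ s' w x) → (∀ w x, t' w x ≤ t (b w) x) →
    ∃ C : Set Ω, C.Nonempty ∧ (∀ w ∈ C, a w ∈ C ∧ b w ∈ C) ∧
      ∀ w ∈ C, ∀ x, s' w ((s w).symm x) = t' w ((t w).symm x) ∧ s (a w) x = s' w x ∧ t' w x = t (b w) x := by
  intro n
  induction n using Nat.strong_induction_on with
  | _ n ih =>
    intro Ω _ a b _ _ _ hn hcard s s' t t' H Hs Ht
    classical
    by_cases htr : ∀ E : Ω → Prop, (∀ w, E (a w) ↔ E w) → (∀ w, E (b w) ↔ E w) → (∀ w, E w) ∨ ∀ w, ¬ E w
    · have h2 := euler_even a b hcard
      have hp : ∀ w, (Quotient.mk _ (a w) : Cyc a) = Quotient.mk _ w := fun w =>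
        Quotient.sound (Perm.sameCycle_apply_left.2 (Perm.SameCycle.refl _ _))
      have hq : ∀ w, (Quotient.mk _ (b w) : Cyc b) = Quotient.mk _ w := fun w =>
        Quotient.sound (Perm.sameCycle_apply_left.2 (Perm.SameCycle.refl _ _))
      have hz : ∀ w, (Quotient.mk _ (a w) : Cyc (b * a⁻¹)) = Quotient.mk _ (b w) := by
        intro w
        refine Quotient.sound ?_
        have h3 : (b * a⁻¹) (a w) = b w := by simp
        rw [← h3]
        exact Perm.sameCycle_apply_right.2 (Perm.SameCycle.refl _ _)
      obtain ⟨hL, hZ⟩ := Helper94.T1.conn_of_trans a b (fun w => (Quotient.mk _ w : Cyc a)) (fun w => (Quotient.mk _ w : Cyc b))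
        (fun w => (Quotient.mk _ w : Cyc (b * a⁻¹))) hp hq hz Quotient.mk_surjective Quotient.mk_surjective
        Quotient.mk_surjective htr
      have h4 := Helper94.T1.planar_slack a b (fun w => (Quotient.mk _ w : Cyc a)) (fun w => (Quotient.mk _ w : Cyc b))
        (fun w => (Quotient.mk _ w : Cyc (b * a⁻¹))) hp hq hz hL hZ h2 s s' t t' H Hs Ht
      have hne : Nonempty Ω := by
        by_contra hem
        rw [not_nonempty_iff] at hem
        have e1 : IsEmpty (Cyc a) := ⟨fun q => by induction q using Quotient.inductionOn with | h w => exact hem.false w⟩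
        have e2 : IsEmpty (Cyc b) := ⟨fun q => by induction q using Quotient.inductionOn with | h w => exact hem.false w⟩
        have e3 : IsEmpty (Cyc (b * a⁻¹)) :=
          ⟨fun q => by induction q using Quotient.inductionOn with | h w => exact hem.false w⟩
        rw [Fintype.card_eq_zero, Fintype.card_eq_zero, Fintype.card_eq_zero, Fintype.card_eq_zero] at hcard
        omega
      exact ⟨Set.univ, ⟨hne.some, trivial⟩, fun w _ => ⟨trivial, trivial⟩, fun w _ x => h4 w x⟩
    · push Not at htr
      obtain ⟨E, ha, hb, ⟨w₁, hw₁⟩, w₂, hw₂⟩ := htr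
      have ha' : ∀ w, ¬ E (a w) ↔ ¬ E w := fun w => not_congr (ha w)
      have hb' : ∀ w, ¬ E (b w) ↔ ¬ E w := fun w => not_congr (hb w)
      have hc : ∀ w, E ((b * a⁻¹) w) ↔ E w := by
        intro w
        rw [Perm.mul_apply, hb]
        have := ha (a⁻¹ w)
        rw [ainv] at this
        exact this.symm
      -- the restriction to an invariant subset
      have step : ∀ (P : Ω → Prop) (hPa : ∀ w, P (a w) ↔ P w) (hPb : ∀ w, P (b w) ↔ P w), (∃ w, ¬ P w) →
          Fintype.card {w // P w} < Fintype.card (Cyc (a.subtypePerm hPa)) + Fintype.card (Cyc (b.subtypePerm hPb)) +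
            Fintype.card (Cyc ((b.subtypePerm hPb) * (a.subtypePerm hPa)⁻¹)) →
          ∃ C : Set Ω, C.Nonempty ∧ (∀ w ∈ C, a w ∈ C ∧ b w ∈ C) ∧
            ∀ w ∈ C, ∀ x, s' w ((s w).symm x) = t' w ((t w).symm x) ∧ s (a w) x = s' w x ∧ t' w x = t (b w) x := by
        rintro P hPa hPb ⟨w₀, hw₀⟩ hlt
        have hlt2 : Fintype.card {w // P w} < n := by
          rw [← hn]
          exact Fintype.card_subtype_lt hw₀
        obtain ⟨C, ⟨v, hv⟩, hC1, hC2⟩ := ih _ hlt2 (a.subtypePerm hPa) (b.subtypePerm hPb) rfl hlt
          (fun w => s w.1) (fun w => s' w.1) (fun w => t w.1) (fun w => t' w.1) (fun w => H w.1)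
          (fun w => Hs w.1) (fun w => Ht w.1)
        refine ⟨Subtype.val '' C, ⟨v.1, v, hv, rfl⟩, ?_, ?_⟩
        · rintro _ ⟨w, hw, rfl⟩
          exact ⟨⟨_, (hC1 w hw).1, rfl⟩, ⟨_, (hC1 w hw).2, rfl⟩⟩
        · rintro _ ⟨w, hw, rfl⟩ x
          exact hC2 w hw x
      have q1 := cyc_split a E ha
      have q2 := cyc_split b E hb
      have q3 := cyc_split (b * a⁻¹) E hc
      have e1 : (b * a⁻¹).subtypePerm hc = (b.subtypePerm hb) * (a.subtypePerm ha)⁻¹ := by
        ext w
        simp [Perm.subtypePerm_apply, Perm.mul_apply]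
      have e2 : (b * a⁻¹).subtypePerm (p := fun w => ¬ E w) (fun w => not_congr (hc w)) =
          (b.subtypePerm (p := fun w => ¬ E w) hb') * (a.subtypePerm (p := fun w => ¬ E w) ha')⁻¹ := by
        ext w
        simp [Perm.subtypePerm_apply, Perm.mul_apply]
      have c1 : Fintype.card (Cyc ((b * a⁻¹).subtypePerm hc)) =
          Fintype.card (Cyc ((b.subtypePerm hb) * (a.subtypePerm ha)⁻¹)) := by
        rw! [e1]
        rfl
      have c2 : Fintype.card (Cyc ((b * a⁻¹).subtypePerm (p := fun w => ¬ E w) (fun w => not_congr (hc w)))) =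
          Fintype.card (Cyc ((b.subtypePerm (p := fun w => ¬ E w) hb') * (a.subtypePerm (p := fun w => ¬ E w) ha')⁻¹)) := by
        rw! [e2]
        rfl
      have hsum : Fintype.card {w // E w} + Fintype.card {w // ¬ E w} = Fintype.card Ω := by
        rw [Fintype.card_subtype_compl]
        have := Fintype.card_subtype_le E
        omega
      by_cases hE : Fintype.card {w // E w} < Fintype.card (Cyc (a.subtypePerm ha)) + Fintype.card (Cyc (b.subtypePerm hb)) +
            Fintype.card (Cyc ((b.subtypePerm hb) * (a.subtypePerm ha)⁻¹))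
      · exact step E ha hb ⟨w₁, hw₁⟩ hE
      · refine step (fun w => ¬ E w) ha' hb' ⟨w₂, not_not.2 hw₂⟩ ?_
        simp only [← Nat.card_eq_fintype_card] at hcard q1 q2 q3 c1 c2 hsum hE ⊢
        omega

/-- The labels of the cycles. -/
theorem card_le_cyc {Ω : Type u} {I : Type*} [Fintype I] (a : Perm Ω) [Fintype (Cyc a)] (p : Ω → I)
    (hp : ∀ w, p (a w) = p w) (hps : Function.Surjective p) : Fintype.card I ≤ Fintype.card (Cyc a) := by
  have h1 : ∀ (i : ℤ) (w : Ω), p ((a ^ i) w) = p w := by
    intro i
    induction i using Int.induction_on with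
    | zero => intro w; simp
    | succ i ih => intro w; rw [zpow_add_one, Perm.mul_apply, ih, hp]
    | pred i ih =>
      intro w
      rw [zpow_sub_one, Perm.mul_apply, ih]
      have := hp (a⁻¹ w)
      rw [ainv] at this
      exact this.symm
  refine Fintype.card_le_of_surjective (Quotient.lift p ?_) ?_
  · rintro w w' ⟨i, rfl⟩
    exact (h1 i w).symm
  · intro i
    obtain ⟨w, rfl⟩ := hps i
    exact ⟨Quotient.mk _ w, rfl⟩

/-- **The planar lemma on a component**, with labels. -/
theorem slack_component {Ω : Type u} {I J Z X : Type*} [Fintype Ω] [Fintype I] [Fintype J] [Fintype Z] [LinearOrder X]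
    (a b : Perm Ω) (p : Ω → I) (q : Ω → J) (z : Ω → Z)
    (hp : ∀ w, p (a w) = p w) (hq : ∀ w, q (b w) = q w) (hz : ∀ w, z (a w) = z (b w))
    (hps : Function.Surjective p) (hqs : Function.Surjective q) (hzs : Function.Surjective z)
    (hcard : Fintype.card Ω < Fintype.card I + Fintype.card J + Fintype.card Z)
    (s s' t t' : Ω → X ≃o X) (H : ∀ w x, s' w ((s w).symm x) ≤ t' w ((t w).symm x))
    (Hs : ∀ w x, s (a w) x ≤ s' w x) (Ht : ∀ w x, t' w x ≤ t (b w) x) :
    ∃ C : Set Ω, C.Nonempty ∧ (∀ w ∈ C, a w ∈ C ∧ b w ∈ C) ∧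
      ∀ w ∈ C, ∀ x, s' w ((s w).symm x) = t' w ((t w).symm x) ∧ s (a w) x = s' w x ∧ t' w x = t (b w) x := by
  classical
  have h1 := card_le_cyc a p hp hps
  have h2 := card_le_cyc b q hq hqs
  have h3 := card_le_cyc (b * a⁻¹) z (fun w => by
    rw [Perm.mul_apply, ← hz, ainv]) hzs
  exact slack_component_cyc _ a b rfl (by omega) s s' t t' H Hs Ht

end Pool.Agent.Helper72.T1
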